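import Pool.Agent.Y628.LA.Final

/-!
# The total number of sides of `k` faces in simple line arrangements

`a(k) = 2 k (k - 1)` for every `k`, where `a(k)` is the largest value of `q₁ + ... + q_k - n`
over all simple arrangements of `n` lines in the real projective plane and all choices of `k`
distinct faces, a `q₁`-gon, ..., a `q_k`-gon. Moreover for every fixed number
`n ≥ max 3 (2 k (k - 1))` of lines the largest value of `q₁ + ... + q_k` is `n + 2 k (k - 1)`.
-/

namespace Pool.Agent.Results.MP_fa8579_co.SidesOfFaces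

open Pool.Agent.Y628.LA

theorem result :
    (∀ k : ℕ, 1 ≤ k →
      IsGreatest {d : ℤ | ∃ (A : Finset (Set (Projectivization ℝ (Fin 3 → ℝ))))
        (F : Fin k → Set (Projectivization ℝ (Fin 3 → ℝ))),
        IsSimpleArrangement A ∧ Function.Injective F ∧ (∀ i, IsFace A (F i)) ∧
        d = ∑ i, (sides A (F i) : ℤ) - (A.card : ℤ)} (2 * k * (k - 1))) ∧
    (∀ k n : ℕ, 1 ≤ k → 3 ≤ n → 2 * k * (k - 1) ≤ n →
      IsGreatest {S : ℕ | ∃ (A : Finset (Set (Projectivization ℝ (Fin 3 → ℝ))))
        (F : Fin k → Set (Projectivization ℝ (Fin 3 → ℝ))),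
        IsSimpleArrangement A ∧ A.card = n ∧ Function.Injective F ∧ (∀ i, IsFace A (F i)) ∧
        S = ∑ i, sides A (F i)} (n + 2 * k * (k - 1))) :=
  ⟨main_a, main_n⟩

end Pool.Agent.Results.MP_fa8579_co.SidesOfFaces
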